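import Mathlib
import Pool.Agent.Zk74.MF.Bridge

/-!
# Symplectic forms in a prescribed class: taming in the mean

`X` is a closed manifold with a continuous almost complex structure `J`, `σ` is a closed two-form
on `X`, and `pr : Z → X` is a normal covering with an arbitrary group `G`. `G` acts on a set `P`,
and `m` is an invariant positive linear functional with `m 1 = 1` on an invariant space `𝓕` of
real functions on `P` (which contains the constants and is closed under relatively uniform limits).
Examples are the invariant means on the bounded functions on `P`, and the integrals of the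
invariant probability measures on `P`.

Let `β p` (`p` in `P`) be an equivariant family of smooth one-forms on `Z`, with values in `𝓕`
and locally bounded with all derivatives by elements of `𝓕`. If the mean of the forms
`pr^* σ + d (β p)` tames `J` outside a set which is small in the fibres of a smooth map
`f : X → Y`, where `df` kills all vectors on which the mean is not positive, then the class of `σ`
contains a symplectic form taming `J`. Conversely, if the class of `σ` contains a symplectic form
taming `J` then there is such a family, for which the exceptional set is empty. The symplectic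
forms so obtained are homotopic, through nondegenerate forms, to all forms taming `J`.
-/

set_option autoImplicit false

open Set MeasureTheory
open scoped Manifold ContDiff

namespace Pool.Agent.Results.MP_bf98aa_gt.MeanTamingInClass

open Pool.Agent.Y501.SYP Pool.Agent.N763.SYM Pool.Agent.Zk74.MFP

theorem result :
    (∀ (d : ℕ) (Z X : Type) [TopologicalSpace Z] [ChartedSpace (ES d) Z]
      [IsManifold 𝓘(ℝ, ES d) ∞ Z] [TopologicalSpace X] [ChartedSpace (ES d) X]
      [IsManifold 𝓘(ℝ, ES d) ∞ X] [CompactSpace X] [T2Space X]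
      (G P : Type) [Group G] [MulAction G Z] [MulAction G P]
      (𝓕 : Set (P → ℝ)) (m : (P → ℝ) → ℝ), InvariantFunctional G 𝓕 m →
      ∀ (pr : Z → X), NormalCovering (ES d) G pr →
      ∀ (J : End (ES d) X), IsAlmostComplex J →
      ∀ (σ : Form (ES d) X 2), IsSmooth σ → IsClosedForm σ →
      (∀ (β : P → Form (ES d) Z 1) (η : P → Form (ES d) Z 2), OneFamily G 𝓕 β η →
        ∀ (k : ℕ) (Y : Type) [TopologicalSpace Y] [ChartedSpace (ES k) Y]
          [IsManifold 𝓘(ℝ, ES k) ∞ Y] [T2Space Y] (f : X → Y),
          Kills (W := ES k) m pr J (shift pr σ η) f →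
          SmallOnFibres m pr J (shift pr σ η) f →
          ∃ τ : Form (ES d) X 2, InClass σ τ ∧ IsTamingSymplectic τ J) ∧
      List.TFAE [
        ∃ τ : Form (ES d) X 2, InClass σ τ ∧ IsTamingSymplectic τ J,
        ∃ (β : P → Form (ES d) Z 1) (η : P → Form (ES d) Z 2), OneFamily G 𝓕 β η ∧
          NotMean m pr J (shift pr σ η) = ∅,
        ∃ (β : P → Form (ES d) Z 1) (η : P → Form (ES d) Z 2), OneFamily G 𝓕 β η ∧
          SmallOnFibres m pr J (shift pr σ η) (fun _ => ())] ∧
      ∀ τ τ' : Form (ES d) X 2, (∀ x, TamesAt τ J x) → (∀ x, TamesAt τ' J x) →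
        ∀ t : ℝ, 0 ≤ t → t ≤ 1 → Nondeg (seg τ τ' t)) ∧
    (∀ (G P : Type) [Group G] [MulAction G P] (m : (P → ℝ) → ℝ), InvariantMean G m →
      InvariantFunctional G {F : P → ℝ | Bdd F} m) ∧
    ∀ (G P : Type) [Group G] [MulAction G P] [MeasurableSpace P] (μ : Measure P)
      [IsProbabilityMeasure μ], (∀ g : G, MeasurePreserving (fun p : P => g • p) μ μ) →
      InvariantFunctional G {F : P → ℝ | Integrable F μ} (fun F => ∫ p, F p ∂μ) := by
  refine ⟨?_, fun G P _ _ m hm => functional_mean hm,
    fun G P _ _ _ μ _ hμ => functional_integral μ hμ⟩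
  intro d Z X _ _ _ _ _ _ _ _ G P _ _ _ 𝓕 m hm pr hpr J hJ σ hσ hσc
  refine ⟨fun β η hβ k Y _ _ _ _ f hf hs => class_taming hm hpr J hJ hσ hσc hβ hf hs, ?_,
    fun τ τ' h h' t ht0 ht1 => seg_nondeg h h' t ht0 ht1⟩
  tfae_have 1 → 2 := by
    rintro ⟨τ, hτ, ht⟩
    obtain ⟨β, η, h1, h2⟩ := class_const (Z := Z) hm hpr J hτ ht
    refine ⟨β, η, h1, Set.eq_empty_iff_forall_notMem.2 ?_⟩
    rintro x ⟨z', -, v, hv, hn⟩
    exact hn (h2 z' v hv)
  tfae_have 2 → 3 := by
    rintro ⟨β, η, h1, h2⟩
    refine ⟨β, η, h1, fun z hz => ?_⟩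
    rw [h2] at hz
    exact absurd hz (Set.notMem_empty _)
  tfae_have 3 → 1 := by
    rintro ⟨β, η, hβ, hsmall⟩
    refine class_taming (k := 0) (Y := ES 0) (f := fun _ => 0) hm hpr J hJ hσ hσc hβ
      ⟨contMDiff_const, fun z v _ => by rw [mfderiv_const]; rfl⟩ ?_
    intro z hz
    have h4 := hsmall z hz
    have h5 : ((fun _ => 0 : X → ES 0) ⁻¹' {(fun _ => 0 : X → ES 0) (pr z)}) =
        (fun _ => () : X → Unit) ⁻¹' {(fun _ => () : X → Unit) (pr z)} := by
      ext x
      simp
    rw [h5]
    exact h4
  tfae_finish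

end Pool.Agent.Results.MP_bf98aa_gt.MeanTamingInClass
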